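import Pool.Agent.X42.GradedOrders

/-!
# The number of labelled graded orders with four grade levels
-/

set_option autoImplicit false

namespace Pool.Agent.Results.MP_ac85ec_co.FourLevelsDisproof

open Pool.Agent.X42.Graded

/-- It is not true that `log₂ a_4(n) = n²/4 + 5n/4 + O(log n)`: for every constant `C` there are
arbitrarily large `n` at which the difference of the two sides exceeds `C log n`. -/
theorem result : ∀ C : ℝ, ∀ N : ℕ, ∃ n ≥ N,
    C * Real.log n < |Real.logb 2 (a 4 n) - (n : ℝ) ^ 2 / 4 - 5 / 4 * n| :=
  disproof

end Pool.Agent.Results.MP_ac85ec_co.FourLevelsDisproof
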